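import Pool.Agent.H528R2.Hier

/-!
# Total NP search problems: a hierarchy below every problem
-/

set_option autoImplicit false

namespace Pool.Agent.TH654.TF

open Turing
open Pool.Agent.H583R2
open Pool.Agent.H528R2.Hier
open Pool.Agent.NPC (PolyTime pairBits eval_mono)

/-- A total NP search problem: a relation between bit strings which is decidable in polynomial
time (`y` is related to `x` iff the polynomial-time function `V` maps the pair of `x` and `y` to
`[true]`), and a polynomial `p` such that for every `x` some `y` of length at most `p |x|` is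
related to `x`. -/
structure Search where
  /-- the verifier -/
  V : List Bool → List Bool
  /-- the bound for the length of the solutions -/
  p : Polynomial ℕ
  polyTime : PolyTime V
  total : ∀ x : List Bool, ∃ y : List Bool, y.length ≤ p.eval x.length ∧
    V (pairBits x y) = [true]

/-- `y` is a solution of the instance `x`. -/
def Search.Sol (T : Search) (x y : List Bool) : Prop :=
  y.length ≤ T.p.eval x.length ∧ T.V (pairBits x y) = [true]

/-- `(f, g)` maps instances `x` of `S` to instances `f x` of `T`, and `T`-solutions `y` of `f x`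
back to `S`-solutions `g (x, y)` of `x`. -/
def Search.Via (S T : Search) (f g : List Bool → List Bool) : Prop :=
  ∀ x y, T.Sol (f x) y → S.Sol x (g (pairBits x y))

/-- `S` reduces to `T` by a polynomial-time many-one reduction. -/
def Search.Reduces (S T : Search) : Prop := ∃ f g, PolyTime f ∧ PolyTime g ∧ S.Via T f g

/-- `f` is computed by a Turing machine (Mathlib's multi-stack machines) in time `O(n ^ k)`. -/
def TimePow (k : ℕ) (f : List Bool → List Bool) : Prop :=
  ∃ (c : ℕ) (M : TM2ComputableInTime (id : List Bool → List Bool) (id : List Bool → List Bool) f),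
    ∀ n, M.time n ≤ c * n ^ k + c

/-- Functions computable in time `O(n ^ k)` are computed by the universal machine within
`(n + 2) ^ (k + 1)` steps on all long inputs. -/
theorem code_of_timePow {k : ℕ} {f : List Bool → List Bool} (h : TimePow k f) :
    ∃ (c : Code) (N : ℕ), ∀ x, N ≤ x.length → U c x ((x.length + 2) ^ (k + 1)) = some (f x) := by
  obtain ⟨c, M, hM⟩ := h
  refine ⟨codeOf M.inputAlphabet M.outputAlphabet, maxDep M.tm * (2 * c), fun x hx => ?_⟩
  refine U_codeOf M.inputAlphabet M.outputAlphabet x (f x) (M.time x.length)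
    (M.outputsFun x) _ ?_
  have h1 : 1 ≤ (x.length + 2) ^ k := Nat.one_le_pow _ _ (by omega)
  have h2 : x.length ^ k ≤ (x.length + 2) ^ k := Nat.pow_le_pow_left (by omega) k
  calc maxDep M.tm * M.time x.length
      ≤ maxDep M.tm * (c * x.length ^ k + c) := Nat.mul_le_mul_left _ (hM _)
    _ ≤ maxDep M.tm * (c * (x.length + 2) ^ k + c * (x.length + 2) ^ k) := by
        refine Nat.mul_le_mul_left _ (Nat.add_le_add (Nat.mul_le_mul_left _ h2) ?_)
        exact Nat.le_mul_of_pos_right _ (by omega)
    _ = maxDep M.tm * (2 * c) * (x.length + 2) ^ k := by ring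
    _ ≤ (x.length + 2) * (x.length + 2) ^ k := Nat.mul_le_mul_right _ (by omega)
    _ = (x.length + 2) ^ (k + 1) := by ring

/-- the pair of machines and the advice described by `x` -/
def cd (x : List Bool) : (Code × Code) × List Bool :=
  decP (decP decCode decCode) (decL decB) (parse x)

/-- the input of the first machine -/
def inF (x : List Bool) : List Bool := (cd x).2 ++ x

/-- the input of the second machine -/
def inG (z : List Bool) : List Bool := (cd (spl z).1).2 ++ z

/-- the first machine described by `x`, run on `x` with the advice given by `x`; the output is cut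
off after `q |x|` symbols -/
def F (q : Polynomial ℕ) (k : ℕ) (x : List Bool) : List Bool :=
  ((U (cd x).1.1 (inF x) (((inF x).length + 2) ^ (k + 1))).getD []).take (q.eval x.length)

/-- the second machine described by the first component of `z`, run on `z` with advice -/
def G (k : ℕ) (z : List Bool) : List Bool :=
  (U (cd (spl z).1).1.2 (inG z) (((inG z).length + 2) ^ (k + 1))).getD []

/-- the counter of length `l` in the string `w` -/
def cnt (l : ℕ) (w : List Bool) : List Bool := ((spl w).2 ++ List.replicate l false).take l

/-- the next value (modulo `2 ^ l`) of the counter in the string `w` -/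
def nxt (l : ℕ) (w : List Bool) : List Bool := (incB (cnt l w)).take l

/-- the length of the counter -/
def lc (T : Search) (q : Polynomial ℕ) (k : ℕ) (x : List Bool) : ℕ :=
  T.p.eval (F q k x).length + 1

section
variable {α : Type} [TEnc α]

theorem pf_cd {x : α → List Bool} (hx : PF x) : PF (fun a => cd (x a)) :=
  PF.decP (d := decP decCode decCode) (d' := decL decB)
    (PF.decP (d := decCode) (d' := decCode) (PF.decCode PF.id) (PF.decCode PF.id) PF.id)
    (PF.decL (d := decB) (PF.decB PF.id) PF.id) (PF.parse hx)

theorem pf_inF {x : α → List Bool} (hx : PF x) : PF (fun a => inF (x a)) :=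
  PF.append (PF.snd' (pf_cd hx)) hx

theorem pf_inG {z : α → List Bool} (hz : PF z) : PF (fun a => inG (z a)) :=
  PF.append (PF.snd' (pf_cd (PF.fst' (PF.spl hz)))) hz

theorem pf_F {x : α → List Bool} (hx : PF x) (q : Polynomial ℕ) (k : ℕ) :
    PF (fun a => F q k (x a)) :=
  PF.take (pf_eval (PF.length hx) q)
    (PF.getD (PF.U.comp (PF.pair (PF.fst' (PF.fst' (pf_cd hx))) (PF.pair (pf_inF hx)
      (pf_pow (PF.add (PF.length (pf_inF hx)) (PF.const 2)) (k + 1))))) (PF.const []))

theorem pf_G {z : α → List Bool} (hz : PF z) (k : ℕ) : PF (fun a => G k (z a)) :=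
  PF.getD (PF.U.comp (PF.pair (PF.snd' (PF.fst' (pf_cd (PF.fst' (PF.spl hz)))))
    (PF.pair (pf_inG hz) (pf_pow (PF.add (PF.length (pf_inG hz)) (PF.const 2)) (k + 1)))))
    (PF.const [])

theorem pf_cnt {l : α → ℕ} {w : α → List Bool} (hl : PF l) (hw : PF w) :
    PF (fun a => cnt (l a) (w a)) :=
  PF.take hl (PF.append (PF.snd' (PF.spl hw)) (PF.replicate hl (PF.const false)))

theorem pf_nxt {l : α → ℕ} {w : α → List Bool} (hl : PF l) (hw : PF w) :
    PF (fun a => nxt (l a) (w a)) :=
  PF.take hl (PF.incB (pf_cnt hl hw))

theorem pf_lc (T : Search) (q : Polynomial ℕ) (k : ℕ) {x : α → List Bool} (hx : PF x) :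
    PF (fun a => lc T q k (x a)) :=
  PF.add (pf_eval (PF.length (pf_F hx q k)) T.p) (PF.const 1)

end

/-! ### counters -/

theorem length_incB_ge (l : List Bool) : l.length ≤ (incB l).length := by
  induction l with
  | nil => simp [incB]
  | cons b l ih =>
    cases b
    · simp [incB]
    · simp only [incB, List.length_cons]; omega

theorem val_incB (l : List Bool) : val (incB l) = val l + 1 := by
  induction l with
  | nil => simp [incB, val]
  | cons b l ih =>
    cases b
    · simp [incB, val]; omega
    · simp only [incB, val, ih]; simp; omega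

theorem val_take (l : ℕ) (c : List Bool) : ∃ m, val c = val (c.take l) + 2 ^ l * m := by
  induction l generalizing c with
  | zero => exact ⟨val c, by simp [val]⟩
  | succ l ih =>
    cases c with
    | nil => exact ⟨0, by simp⟩
    | cons b c =>
      obtain ⟨m, hm⟩ := ih c
      refine ⟨m, ?_⟩
      rw [List.take_succ_cons, val, val, hm, pow_succ]
      ring

theorem val_lt (c : List Bool) : val c < 2 ^ c.length := by
  induction c with
  | nil => simp [val]
  | cons b c ih =>
    rw [val, List.length_cons, pow_succ]
    cases b <;> simp <;> omega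

theorem val_mark_pos (c : List Bool) : 1 ≤ val (c ++ [true]) := by
  rw [val_append]
  have : 1 ≤ 2 ^ c.length := Nat.one_le_pow _ _ (by omega)
  simp
  omega

theorem val_mark_lt (c : List Bool) : val (c ++ [true]) < 2 ^ (c.length + 1) := by
  have := val_lt (c ++ [true])
  simpa using this

theorem val_mark_inj (c d : List Bool) (h : val (c ++ [true]) = val (d ++ [true])) : c = d := by
  induction c generalizing d with
  | nil =>
    cases d with
    | nil => rfl
    | cons b d =>
      exfalso
      have h1 := val_mark_pos d
      rw [List.cons_append, val] at h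
      simp [val] at h
      omega
  | cons a c ih =>
    cases d with
    | nil =>
      exfalso
      have h1 := val_mark_pos c
      rw [List.cons_append, val] at h
      simp [val] at h
      omega
    | cons b d =>
      rw [List.cons_append, List.cons_append, val, val] at h
      have hab : a = b := by
        cases a <;> cases b <;> simp at h ⊢ <;> omega
      subst hab
      rw [ih d (by omega)]

theorem length_cnt (l : ℕ) (w : List Bool) : (cnt l w).length = l := by
  unfold cnt
  rw [List.length_take, List.length_append, List.length_replicate]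
  omega

theorem length_nxt (l : ℕ) (w : List Bool) : (nxt l w).length = l := by
  unfold nxt
  rw [List.length_take]
  have h1 := length_incB_ge (cnt l w)
  have h2 := length_cnt l w
  omega

theorem cnt_pairBits (l : ℕ) (y c : List Bool) (h : c.length = l) : cnt l (pairBits y c) = c := by
  unfold cnt
  rw [spl_pairBits]
  simp only
  rw [List.take_append_of_le_length (by omega), List.take_of_length_le (by omega)]

theorem val_nxt (l : ℕ) (w : List Bool) :
    ((val (nxt l w) : ℕ) : ZMod (2 ^ l)) = (val (cnt l w) : ℕ) + 1 := by
  obtain ⟨m, hm⟩ := val_take l (incB (cnt l w))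
  rw [val_incB] at hm
  have := congrArg (fun n : ℕ => (n : ZMod (2 ^ l))) hm
  simp only [Nat.cast_add, Nat.cast_mul, Nat.cast_one] at this
  rw [ZMod.natCast_self, zero_mul, add_zero] at this
  exact this.symm

/-- A function on a nonempty set with less than `n` elements cannot lower a counter modulo `n` by
one at each element. -/
theorem no_counter {A : Type} (n m : ℕ) (hmn : m < n) (e : A → Fin m)
    (he : Function.Injective e) (a : A) (φ : A → A) (ψ : A → ZMod n)
    (h : ∀ a, ψ a = ψ (φ a) + 1) : False := by
  have h1 : ∀ j : ℕ, ψ a = ψ (φ^[j] a) + j := by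
    intro j
    induction j with
    | zero => simp
    | succ j ih =>
      rw [Function.iterate_succ_apply', ih, h (φ^[j] a)]
      push_cast
      ring
  have hinj : Function.Injective (fun j : Fin n => e (φ^[j] a)) := by
    intro i j hij
    have h2 : φ^[i] a = φ^[j] a := he hij
    have h3 := h1 i
    have h4 := h1 j
    rw [h2] at h3
    have h5 : ((i : ℕ) : ZMod n) = ((j : ℕ) : ZMod n) := add_left_cancel (h3.symm.trans h4)
    have h6 := (ZMod.natCast_eq_natCast_iff' _ _ _).1 h5
    rw [Nat.mod_eq_of_lt i.2, Nat.mod_eq_of_lt j.2] at h6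
    exact Fin.ext h6
  have := Fintype.card_le_of_injective _ hinj
  rw [Fintype.card_fin, Fintype.card_fin] at this
  omega

/-! ### the diagonal problem -/

theorem length_F_le (q : Polynomial ℕ) (k : ℕ) (x : List Bool) :
    (F q k x).length ≤ q.eval x.length := by
  unfold F
  rw [List.length_take]
  omega

/-- The solution of `x` which belongs to the `T`-solution `y` of `F x`. -/
def out (T : Search) (q : Polynomial ℕ) (k : ℕ) (x y : List Bool) : List Bool :=
  pairBits y (nxt (lc T q k x) (G k (pairBits x y)))

/-- The verifier of the diagonal problem. -/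
def VS (T : Search) (q : Polynomial ℕ) (k : ℕ) (z : List Bool) : List Bool :=
  if (decide ((spl (spl z).2).1.length ≤ T.p.eval (F q k (spl z).1).length) &&
      (T.V (pairBits (F q k (spl z).1) (spl (spl z).2).1) == [true])) &&
      ((spl z).2 == out T q k (spl z).1 (spl (spl z).2).1) then [true] else []

theorem VS_polyTime (T : Search) (q : Polynomial ℕ) (k : ℕ) : PolyTime (VS T q k) := by
  refine polyTime_of_pf ?_
  have hV := pf_of_polyTime T.polyTime
  have hx : PF (fun z : List Bool => (spl z).1) := PF.fst' (PF.spl PF.id)
  have hw : PF (fun z : List Bool => (spl z).2) := PF.snd' (PF.spl PF.id)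
  have hy : PF (fun z : List Bool => (spl (spl z).2).1) := PF.fst' (PF.spl hw)
  have hF := pf_F hx q k
  refine PF.ite (PF.and (PF.and (PF.le (PF.length hy) (pf_eval (PF.length hF) T.p))
    (PF.beqStr (hV.comp (pf_pairBits hF hy)) (PF.const _))) (PF.beqStr hw ?_))
    (PF.const _) (PF.const _)
  exact pf_pairBits hy (pf_nxt (pf_lc T q k hx) (pf_G (pf_pairBits hx hy) k))

theorem VS_iff (T : Search) (q : Polynomial ℕ) (k : ℕ) (x w : List Bool) :
    VS T q k (pairBits x w) = [true] ↔ ∃ y, T.Sol (F q k x) y ∧ w = out T q k x y := by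
  unfold VS
  rw [spl_pairBits]
  simp only
  constructor
  · intro h
    split at h
    · rename_i hc
      simp only [Bool.and_eq_true, decide_eq_true_eq, beq_iff_eq] at hc
      exact ⟨(spl w).1, ⟨hc.1.1, hc.1.2⟩, hc.2⟩
    · simp at h
  · rintro ⟨y, hy, rfl⟩
    have e : (spl (out T q k x y)).1 = y := by rw [out, spl_pairBits]
    rw [e, if_pos]
    simp only [Bool.and_eq_true, decide_eq_true_eq, beq_iff_eq, and_true]
    exact hy

theorem length_out_le (T : Search) (q : Polynomial ℕ) (k : ℕ) {x y : List Bool}
    (h : T.Sol (F q k x) y) :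
    (out T q k x y).length ≤ (3 * T.p.comp q + 2 : Polynomial ℕ).eval x.length := by
  have h0 : T.p.eval (F q k x).length ≤ T.p.eval (q.eval x.length) :=
    eval_mono _ (length_F_le q k x)
  have h1 : y.length ≤ T.p.eval (F q k x).length := h.1
  unfold out
  rw [pairBits_length, length_nxt]
  simp only [Polynomial.eval_add, Polynomial.eval_mul, Polynomial.eval_comp,
    Polynomial.eval_ofNat]
  unfold lc
  omega

/-- The diagonal problem: an instance `x` describes two machines computing functions `f` and `g`
(and an advice string `u`); the solutions are the pairs of a `T`-solution `y` of `f (u x)` and a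
counter, which is one more than the counter in the string `g (u (x, y))`. -/
noncomputable def diag (T : Search) (q : Polynomial ℕ) (k : ℕ) : Search where
  V := VS T q k
  p := 3 * T.p.comp q + 2
  polyTime := VS_polyTime T q k
  total := fun x => by
    obtain ⟨y, hy⟩ := T.total (F q k x)
    exact ⟨out T q k x y, length_out_le T q k hy, (VS_iff T q k _ _).2 ⟨y, hy, rfl⟩⟩

theorem sol_diag_iff (T : Search) (q : Polynomial ℕ) (k : ℕ) (x w : List Bool) :
    (diag T q k).Sol x w ↔ ∃ y, T.Sol (F q k x) y ∧ w = out T q k x y := by
  constructor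
  · intro h
    exact (VS_iff T q k x w).1 h.2
  · rintro ⟨y, hy, rfl⟩
    exact ⟨length_out_le T q k hy, (VS_iff T q k _ _).2 ⟨y, hy, rfl⟩⟩

/-- The diagonal problem reduces to `T`. -/
theorem diag_reduces (T : Search) (q : Polynomial ℕ) (k : ℕ) : (diag T q k).Reduces T := by
  refine ⟨F q k, fun z => pairBits (spl z).2 (nxt (lc T q k (spl z).1) (G k z)),
    polyTime_of_pf (pf_F PF.id q k), ?_, ?_⟩
  · exact polyTime_of_pf (pf_pairBits (PF.snd' (PF.spl PF.id))
      (pf_nxt (pf_lc T q k (PF.fst' (PF.spl PF.id))) (pf_G PF.id k)))
  · intro x y hy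
    refine (sol_diag_iff T q k _ _).2 ⟨y, hy, ?_⟩
    simp only [out, spl_pairBits]

theorem length_ser (t : Tr) : (ser t).length = tsz t := by
  induction t with
  | leaf => rfl
  | node a b iha ihb =>
    rw [tsz_node, ← iha, ← ihb]
    simp [ser]
    omega

/-- The diagonal problem does not reduce to `T` in time `O(n ^ k)`, with short advice, on the
instances of any large length. -/
theorem diag_not_via (T : Search) (q : Polynomial ℕ) (k : ℕ)
    {f g : List Bool → List Bool} (hf : TimePow k f) (hg : TimePow k g) :
    ∃ n₀, ∀ n, n₀ ≤ n → ∀ u : List Bool, 5 * u.length ≤ n →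
      (∀ x, x.length = n → (f (u ++ x)).length ≤ q.eval n) →
      ∃ x y, x.length = n ∧ T.Sol (f (u ++ x)) y ∧
        ¬ (diag T q k).Sol x (g (u ++ pairBits x y)) := by
  obtain ⟨c, N, hc⟩ := code_of_timePow hf
  obtain ⟨d, N', hd⟩ := code_of_timePow hg
  refine ⟨N + N' + 5 * (sz (c, d) + 2), fun n hn u hu hq => ?_⟩
  have hsz : (ser (enc ((c, d), u))).length ≤ n := by
    rw [length_ser]
    change sz ((c, d), u) ≤ n
    rw [sz_pair]
    have h1 := sz_str_le u
    omega
  set x : List Bool := ser (enc ((c, d), u)) ++
    List.replicate (n - (ser (enc ((c, d), u))).length) false with hx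
  have hlen : x.length = n := by
    rw [hx, List.length_append, List.length_replicate]
    omega
  have hcd : cd x = ((c, d), u) := by
    rw [hx, cd, parse_ser]
    exact decP_enc (decP_enc decCode_enc decCode_enc) (decL_enc decB_enc) ((c, d), u)
  have hF : F q k x = f (u ++ x) := by
    unfold F inF
    rw [hcd]
    simp only
    rw [hc _ (by rw [List.length_append]; omega)]
    rw [Option.getD_some, hlen]
    exact List.take_of_length_le (hq x hlen)
  have hG : ∀ y, G k (pairBits x y) = g (u ++ pairBits x y) := by
    intro y
    unfold G inG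
    rw [spl_pairBits]
    simp only
    rw [hcd]
    simp only
    rw [hd _ (by rw [List.length_append, pairBits_length]; omega)]
    rfl
  by_contra hcon
  push Not at hcon
  have h : ∀ y, T.Sol (f (u ++ x)) y → ∃ y', T.Sol (f (u ++ x)) y' ∧
      g (u ++ pairBits x y) = pairBits y' (nxt (lc T q k x) (g (u ++ pairBits x y'))) := by
    intro y hy
    obtain ⟨y', hy', hw⟩ := (sol_diag_iff T q k _ _).1 (hcon x y hlen hy)
    rw [hF] at hy'
    rw [out, hG] at hw
    exact ⟨y', hy', hw⟩
  choose φ h1 h2 using h
  obtain ⟨y₀, hy₀⟩ := T.total (f (u ++ x))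
  have hl : lc T q k x = T.p.eval (f (u ++ x)).length + 1 := by rw [lc, hF]
  have hm : ∀ y : {y // T.Sol (f (u ++ x)) y},
      val (y.1 ++ [true]) - 1 < 2 ^ lc T q k x - 1 := by
    intro y
    have e1 := val_mark_lt y.1
    have e2 := val_mark_pos y.1
    have e3 : 2 ^ (y.1.length + 1) ≤ 2 ^ lc T q k x := by
      refine Nat.pow_le_pow_right (by omega) ?_
      rw [hl]
      exact Nat.succ_le_succ y.2.1
    omega
  refine no_counter (A := {y // T.Sol (f (u ++ x)) y}) (2 ^ lc T q k x) (2 ^ lc T q k x - 1)
    ?_ (fun y => ⟨val (y.1 ++ [true]) - 1, hm y⟩) ?_ ⟨y₀, hy₀⟩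
    (fun y => ⟨φ y.1 y.2, h1 y.1 y.2⟩)
    (fun y => ((val (cnt (lc T q k x) (g (u ++ pairBits x y.1))) : ℕ) : ZMod (2 ^ lc T q k x)))
    ?_
  · have : 0 < 2 ^ lc T q k x := Nat.pow_pos (by omega)
    omega
  · rintro ⟨y, hy⟩ ⟨y', hy'⟩ he
    simp only [Fin.mk.injEq] at he
    have e1 := val_mark_pos y
    have e2 := val_mark_pos y'
    exact Subtype.ext (val_mark_inj y y' (by omega))
  · rintro ⟨y, hy⟩
    simp only
    rw [h2 y hy, cnt_pairBits _ _ _ (length_nxt _ _), val_nxt]

end Pool.Agent.TH654.TF
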